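import Pool.Agent.H549.FS.PairFinal

/-!
# Two given multiples of a number, both even squarefree congruent numbers

Let `k₁`, `k₂` be odd coprime squarefree positive integers. For at least `c X ^ (1/3)` integers
`m ≤ X` of every class `2, 6, 10, 14` modulo `16` both `k₁ m` and `k₂ m` are even squarefree
congruent numbers (and `m` is prime to `k₁ k₂`). The class of `m` can be chosen so that `k₁ m` or
`k₂ m` is in a given class modulo `16`, for example `≡ 2 mod 8`, where the hypothesis
`2 |C_n| = |D_n|` is a real condition. For `k₁ = 1` the numbers are `n` and `k n`.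

Proof. If `x > 0`, `y ≠ 0` and `M = 3 (x + y) (2 x - y) (x - 2 y)` has positive factors, then `x M` and
`|y| M` are (up to squares) areas of rational right triangles. Take `x = a v²`, `y = ± b u²`,
`a`, `b` equal to `k₁`, `k₂` up to factors `3`; the sign and the class of `(u, v)` at the prime `2`
depend on `k₁`, `k₂` modulo `8` and on the class of `m`. Then sieve for the squares of primes in
the values at the pairs `(u, v)`.
-/

theorem Pool.Agent.Results.MP_f126a2_nt.TwoEvenMultiples.result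
    (k₁ k₂ : ℕ) (h₁ : Squarefree k₁) (h₂ : Squarefree k₂) (h : Nat.Coprime k₁ k₂)
    (ho₁ : Odd k₁) (ho₂ : Odd k₂) (r : ℕ) (hr : Odd r) :
    ∃ c : ℝ, 0 < c ∧ ∃ X₀ : ℝ, ∀ X : ℝ, X₀ ≤ X →
      c * X ^ (1 / 3 : ℝ) ≤ (Set.ncard {m : ℕ | (m : ℝ) ≤ X ∧ m ≡ 2 * r [MOD 16] ∧
        Squarefree (k₁ * m) ∧ Squarefree (k₂ * m) ∧ Nat.Coprime m (k₁ * k₂) ∧
        Pool.Agent.H549.FS.IsCongruent (k₁ * m) ∧
        Pool.Agent.H549.FS.IsCongruent (k₂ * m)} : ℝ) :=
  Pool.Agent.H549.FS.pairs_even h₁ h₂ h ho₁ ho₂ hr
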